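import Pool.Agent.Helper51.REC.Goals2
import Pool.Agent.Helper40.RD.TRF

/-!
# Project REC (MP_fc6b1e_nt), packet D_CYC: cyclotomic extensions
-/

set_option autoImplicit false

namespace Pool.Agent.Helper27.REC

open NumberField Module IsDedekindDomain Pool.Agent.Helper51.RP Pool.Agent.Helper42.PP
open Pool.Agent.Helper51.REC
open Pool.Agent.Helper40.RS (bel absNorm_free)
open Pool.Agent.Helper40.RD (bel_of_above)

section

variable {F E : Type} [Field F] [NumberField F] [Field E] [NumberField E] [Algebra F E]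

/-- There is a prime above every prime. -/
theorem exists_above (W : HeightOneSpectrum (𝓞 F)) :
    ∃ w : HeightOneSpectrum (𝓞 E), Above w W := by
  have hinj : Function.Injective (algebraMap (𝓞 F) (𝓞 E)) :=
    FaithfulSMul.algebraMap_injective (𝓞 F) (𝓞 E)
  have hW : W.asIdeal.IsMaximal := W.isMaximal
  obtain ⟨Q, hQ, hQW⟩ := Ideal.exists_ideal_over_maximal_of_isIntegral (S := 𝓞 E) W.asIdeal
    (by rw [(RingHom.injective_iff_ker_eq_bot _).1 hinj]; exact bot_le)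
  refine ⟨⟨Q, hQ.isPrime, ?_⟩, hQW⟩
  intro h0
  apply W.ne_bot
  rw [← hQW, h0, Ideal.comap_bot_of_injective _ hinj]

/-- A root of unity of order dividing `N W - 1` is congruent to an element of `F` modulo `w`. -/
theorem exists_cong (W : HeightOneSpectrum (𝓞 F)) (w : HeightOneSpectrum (𝓞 E))
    (hw : Above w W) (n : ℕ) (hn : 0 < n) (hd : n ∣ Ideal.absNorm W.asIdeal - 1) (Z : 𝓞 E)
    (hZ : Z ^ n = 1) : ∃ c : 𝓞 F, Z - algebraMap (𝓞 F) (𝓞 E) c ∈ w.asIdeal := by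
  have hWm : W.asIdeal.IsMaximal := W.isMaximal
  have hwm : w.asIdeal.IsMaximal := w.isMaximal
  let _ : Field (𝓞 F ⧸ W.asIdeal) := Ideal.Quotient.field _
  let _ : Field (𝓞 E ⧸ w.asIdeal) := Ideal.Quotient.field _
  have hfin : Finite (𝓞 F ⧸ W.asIdeal) := Ideal.finiteQuotientOfFreeOfNeBot _ W.ne_bot
  have hcard : Nat.card (𝓞 F ⧸ W.asIdeal)ˣ = Ideal.absNorm W.asIdeal - 1 := by
    have : Fintype (𝓞 F ⧸ W.asIdeal) := Fintype.ofFinite _
    rw [Nat.card_units]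
    rfl
  have hcyc : IsCyclic (𝓞 F ⧸ W.asIdeal)ˣ := inferInstance
  obtain ⟨g, hg⟩ := IsCyclic.exists_ofOrder_eq_natCard (α := (𝓞 F ⧸ W.asIdeal)ˣ)
  rw [hcard] at hg
  obtain ⟨m, hm⟩ := hd
  have hne : Ideal.absNorm W.asIdeal - 1 ≠ 0 := by
    rw [← hcard]
    exact Nat.card_pos.ne'
  have hm0 : m ≠ 0 := by
    rintro rfl
    rw [mul_zero] at hm
    exact hne hm
  have hord : orderOf (g ^ m) = n := by
    rw [orderOf_pow_of_dvd hm0 (by rw [hg, hm]; exact Dvd.intro_left _ rfl), hg, hm]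
    exact Nat.mul_div_cancel _ (Nat.pos_of_ne_zero hm0)
  have hprim : IsPrimitiveRoot (((g ^ m : (𝓞 F ⧸ W.asIdeal)ˣ)) : 𝓞 F ⧸ W.asIdeal) n := by
    rw [IsPrimitiveRoot.coe_units_iff, ← hord]
    exact IsPrimitiveRoot.orderOf _
  let f : (𝓞 F ⧸ W.asIdeal) →+* (𝓞 E ⧸ w.asIdeal) :=
    Ideal.quotientMap w.asIdeal (algebraMap (𝓞 F) (𝓞 E)) (by rw [hw])
  have hprim' := hprim.map_of_injective (f := f) f.injective
  have hZ' : (Ideal.Quotient.mk w.asIdeal Z) ^ n = 1 := by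
    rw [← map_pow, hZ, map_one]
  have : NeZero n := ⟨hn.ne'⟩
  obtain ⟨i, -, hi⟩ := hprim'.eq_pow_of_pow_eq_one hZ'
  obtain ⟨c, hc⟩ := Ideal.Quotient.mk_surjective
    ((((g ^ m : (𝓞 F ⧸ W.asIdeal)ˣ)) : 𝓞 F ⧸ W.asIdeal) ^ i)
  refine ⟨c, ?_⟩
  rw [← Ideal.Quotient.eq, ← hi, ← map_pow, ← hc]
  rfl

omit [NumberField E] in
/-- Roots of unity of order prime to `w` which are congruent are equal. -/
theorem eq_one_of_cong (w : HeightOneSpectrum (𝓞 E)) (n : ℕ) (hn : (n : 𝓞 E) ∉ w.asIdeal)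
    (ζ : 𝓞 E) (h1 : ζ ^ n = 1) (h2 : ζ - 1 ∈ w.asIdeal) : ζ = 1 := by
  by_contra hne
  have h3 : (∑ i ∈ Finset.range n, ζ ^ i) * (ζ - 1) = 0 := by
    rw [geom_sum_mul, h1, sub_self]
  have h4 : ∑ i ∈ Finset.range n, ζ ^ i = 0 := by
    rcases mul_eq_zero.1 h3 with h | h
    · exact h
    · exact absurd (sub_eq_zero.1 h) hne
  apply hn
  have h5 : ∀ i : ℕ, ζ ^ i - 1 ∈ w.asIdeal := by
    intro i
    have := sub_dvd_pow_sub_pow ζ 1 i
    rw [one_pow] at this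
    exact Ideal.mem_of_dvd _ this h2
  have h6 : ∑ i ∈ Finset.range n, (ζ ^ i - 1) ∈ w.asIdeal :=
    Ideal.sum_mem _ fun i _ => h5 i
  rw [Finset.sum_sub_distrib, h4] at h6
  simp only [Finset.sum_const, Finset.card_range, nsmul_eq_mul, mul_one, zero_sub] at h6
  exact (neg_mem_iff).1 h6

end

theorem mem_of_val {E : Type} [Field E] [NumberField E] (w : HeightOneSpectrum (𝓞 E)) (x : 𝓞 E) :
    w.valuation E (x : E) < 1 ↔ x ∈ w.asIdeal := by
  have := HeightOneSpectrum.valuation_lt_one_iff_mem (K := E) w x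
  exact this

/-- The decomposition group of `w` is trivial. -/
theorem free_cyc (p t : ℕ) [NeZero (p ^ t)] (F E : Type) [Field F] [NumberField F] [Field E]
    [NumberField E] [Algebra F E] [IsCyclotomicExtension {p ^ t} F E]
    (W : HeightOneSpectrum (𝓞 F)) (w : HeightOneSpectrum (𝓞 E)) (hw : Above w W)
    (hWp : W.valuation F (p : F) = 1) (hd : p ^ t ∣ Ideal.absNorm W.asIdeal - 1) :
    FreeP F w := by
  intro g hg
  have hz := IsCyclotomicExtension.zeta_spec (p ^ t) F E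
  set z : E := IsCyclotomicExtension.zeta (p ^ t) F E with hzdef
  have hpt : 0 < p ^ t := NeZero.pos _
  have hzi : IsIntegral ℤ z := hz.isIntegral hpt
  obtain ⟨Z, hZ⟩ : ∃ Z : 𝓞 E, (Z : E) = z := ⟨⟨z, hzi⟩, rfl⟩
  have hZn : Z ^ (p ^ t) = 1 := by
    apply RingOfIntegers.coe_injective
    rw [map_pow, map_one]
    show (Z : E) ^ (p ^ t) = 1
    rw [hZ, hz.pow_eq_one]
  -- `p` is a unit at `w`
  have hpW : (p : 𝓞 F) ∉ W.asIdeal := by
    intro h
    have h1 := (mem_of_val W (p : 𝓞 F)).2 h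
    have e : (((p : 𝓞 F)) : F) = (p : F) := map_natCast (algebraMap (𝓞 F) F) p
    rw [e, hWp] at h1
    exact lt_irrefl _ h1
  have hpw : ((p ^ t : ℕ) : 𝓞 E) ∉ w.asIdeal := by
    intro h
    rw [Nat.cast_pow] at h
    have h1 := w.isPrime.mem_of_pow_mem _ h
    apply hpW
    rw [← hw, Ideal.mem_comap, map_natCast]
    exact h1
  obtain ⟨c, hc⟩ := exists_cong W w hw (p ^ t) hpt hd Z hZn
  -- `g Z`
  let Z' : 𝓞 E := RingOfIntegers.mapRingHom (g : E →+* E) Z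
  have hZ' : (Z' : E) = g z := by
    rw [← hZ]
    rfl
  have hcZ' : Z' - algebraMap (𝓞 F) (𝓞 E) c ∈ w.asIdeal := by
    rw [← mem_of_val] at hc ⊢
    have e1 : ((Z' - algebraMap (𝓞 F) (𝓞 E) c : 𝓞 E) : E) =
        g (((Z - algebraMap (𝓞 F) (𝓞 E) c : 𝓞 E) : E)) := by
      have e2 : (((algebraMap (𝓞 F) (𝓞 E) c : 𝓞 E)) : E) = algebraMap F E (c : F) := rfl
      have e3 : ∀ a b : 𝓞 E, ((a - b : 𝓞 E) : E) = (a : E) - (b : E) :=
        fun a b => map_sub (algebraMap (𝓞 E) E) a b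
      rw [e3, e3, map_sub, hZ', hZ, e2, AlgEquiv.commutes]
    rw [e1, hg]
    exact hc
  have hdif : Z' - Z ∈ w.asIdeal := by
    have := Ideal.sub_mem _ hcZ' hc
    rwa [sub_sub_sub_cancel_right] at this
  -- quotient
  have hmul : Z * Z ^ (p ^ t - 1) = 1 := by
    rw [← pow_succ', Nat.sub_add_cancel hpt, hZn]
  have hZ'n : Z' ^ (p ^ t) = 1 := by
    show (RingOfIntegers.mapRingHom (g : E →+* E) Z) ^ (p ^ t) = 1
    rw [← map_pow, hZn, map_one]
  have hone : Z' * Z ^ (p ^ t - 1) = 1 := by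
    apply eq_one_of_cong w (p ^ t) hpw
    · rw [mul_pow, hZ'n, one_mul, ← pow_mul, mul_comm, pow_mul, hZn, one_pow]
    · have e : Z' * Z ^ (p ^ t - 1) - 1 = (Z' - Z) * Z ^ (p ^ t - 1) := by
        rw [sub_mul, hmul]
      rw [e]
      exact Ideal.mul_mem_right _ _ hdif
  have hZZ' : Z' = Z := by
    have h1 : Z' * (Z ^ (p ^ t - 1) * Z) = Z := by
      rw [← mul_assoc, hone, one_mul]
    rwa [mul_comm (Z ^ (p ^ t - 1)) Z, hmul, mul_one] at h1
  have hgz : g z = z := by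
    rw [← hZ', hZZ', hZ]
  have h1 : (g : E →ₐ[F] E) = AlgHom.id F E := by
    apply (hz.powerBasis F).algHom_ext
    rw [IsPrimitiveRoot.powerBasis_gen]
    exact hgz
  ext x
  exact congrArg (fun f : E →ₐ[F] E => f x) h1

theorem d_cyc : D_CYC := by
  intro p _ F _ _ _ t
  have hp : p.Prime := Fact.out
  have hpt : 0 < p ^ t := Nat.pow_pos hp.pos
  have : NeZero (p ^ t) := ⟨hpt.ne'⟩
  have hNF : NumberField (CyclotomicField (p ^ t) F) :=
    IsCyclotomicExtension.numberField {p ^ t} F (CyclotomicField (p ^ t) F)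
  have hgal : IsGalois F (CyclotomicField (p ^ t) F) :=
    IsCyclotomicExtension.isGalois {p ^ t} F (CyclotomicField (p ^ t) F)
  refine ⟨CyclotomicField (p ^ t) F, inferInstance, hNF, inferInstance, hgal,
    isTotallyComplex_of_algebra F _, ⟨IsCyclotomicExtension.zeta (p ^ t) F _,
      IsCyclotomicExtension.zeta_spec (p ^ t) F _⟩, ?_⟩
  intro W hWp hWd
  obtain ⟨w, hw⟩ := exists_above (E := CyclotomicField (p ^ t) F) W
  have hf := free_cyc p t F (CyclotomicField (p ^ t) F) W w hw hWp hWd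
  refine ⟨w, hw, ?_⟩
  rw [absNorm_free (K := F) w hf, ← bel_of_above hw]

end Pool.Agent.Helper27.REC
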